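import Pool.Agent.Y139.SM.Defs

/-!
# The class function of the defects and the tensor square of the transcendental part: statement

`X` is a smooth projective variety over a number field `K`, of dimension `d`, `0 ≤ m ≤ d`, `N` the `2m`-th
Betti number and `V` a part of `H^{2m}(X)(m)`, for example `V = A^m(X) ⊗ ℚ`.  `T` is the complement of
`V(-m)` in `H^{2m}(X)`, of dimension `s = N - dim V`; `T ⊗ T` is a part of `H^{4m}(X × X)`.
-/

set_option autoImplicit false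

namespace Pool.Agent.Q11.PL

open NumberField IsDedekindDomain Filter Topology Polynomial
open Pool.Agent.W353.EF (LFun)
open Pool.Agent.W353.EH (edgePoint size)
open Pool.Agent.W353.TD (rank)
open Pool.Agent.W353.AT (IsArtin IsTwistedSystem twistRank TwistDefect)
open Pool.Agent.Y139.SM (IsTensorSystem TensorPole)

/-- `U` is an open normal subgroup of the absolute Galois group of `K`, that is the absolute Galois group
of a finite Galois extension `M` of `K`, and the `χ_k` are all the irreducible representations of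
`Gal(M/K)`: irreducible, pairwise inequivalent, trivial on `U`, and `∑ n_k² = [M : K]`. -/
def IsComplete {K : Type} [Field K] (U : Subgroup Gal(AlgebraicClosure K/K)) {κ : Type} [Fintype κ]
    (n : κ → ℕ) (χ : ∀ k, Representation ℂ Gal(AlgebraicClosure K/K) (Fin (n k) → ℂ)) : Prop :=
  U.Normal ∧ IsOpen (U : Set Gal(AlgebraicClosure K/K)) ∧
    (∀ k, ∀ u ∈ U, χ k u = 1) ∧ (∀ k, (χ k).IsIrreducible) ∧
    (∀ k k', k ≠ k' → IsEmpty ((χ k).Equiv (χ k'))) ∧
    ∑ k, n k ^ 2 = Nat.card (Gal(AlgebraicClosure K/K) ⧸ U)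

section
variable {K : Type} [Field K] [NumberField K] {l : ℕ} (X : Set (MvPolynomial (Fin l) (𝓞 K)))
  (d m N : ℕ) {V : Type} [AddCommGroup V] [Module ℚ V] [FiniteDimensional ℚ V]
  (ρ : Representation ℚ Gal(AlgebraicClosure K/K) V)

/-- **The pointwise law.**  Let `χ_k` be all the irreducible representations of `Gal(M/K)`, for a finite
Galois extension `M` of `K`.
* (No continuation is assumed.)  The `L`-functions do not vanish near the edge, and for every `g` and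
  `η > 0` and all small `ε > 0`
  `|∑ x_k(ε) χ_k(g)|² ≤ Re ∑ S_k(ε) χ_k(g) + η` and `Re ∑ S_k(ε) χ_k(g) ≤ s² + η`, where
  `x_k(ε) = log |L(H^{2m}(X) ⊗ χ_k, m + 1 + ε)| / log(1/ε) - dim (V ⊗ χ_k)^{Gal(K̄/K)}` and
  `S_k(ε) = log |L(T ⊗ T ⊗ χ_k, 2m + 1 + ε)| / log(1/ε)`.
* If the `χ_k` have the integral defects `δ_k` and `L(T ⊗ T ⊗ χ_k, s)` has a pole of order `p_k` at the
  edge, then `|∑ δ_k χ_k(g)|² ≤ Re ∑ p_k χ_k(g) ≤ s²` for all `g`.
* If in addition `p_k = c dim χ_k` for all `k`, with `c < [M : K]`, then `δ_k = 0` for all `k`, and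
  Tate's conjecture on the pole holds for `X` over all fields `F` between `K` and `M`:
  `log |L(H^{2m}(X_F), m + 1 + ε)| / log(1/ε)` tends to `dim V^{Gal(K̄/F)}`. -/
def PointwiseLaw : Prop :=
  ∀ (U : Subgroup Gal(AlgebraicClosure K/K)) (κ : Type) [Fintype κ] (n : κ → ℕ)
    (χ : ∀ k, Representation ℂ Gal(AlgebraicClosure K/K) (Fin (n k) → ℂ)), IsComplete U n χ →
  (∀ B C : κ → HeightOneSpectrum (𝓞 K) → ℂ[X],
    (∀ k, IsTwistedSystem X d (2 * m) N (χ k) 0 (B k)) →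
    (∀ k, IsTensorSystem X d m N ρ 2 (χ k) (C k)) →
    (∀ k, ∀ᶠ ε : ℝ in 𝓝[>] 0, LFun (B k) (edgePoint (2 * m) 0 + ε) ≠ 0 ∧
      LFun (C k) (edgePoint (2 * (2 * m)) 0 + ε) ≠ 0) ∧
    ∀ (g : Gal(AlgebraicClosure K/K)) (η : ℝ), 0 < η → ∀ᶠ ε : ℝ in 𝓝[>] 0,
      ‖∑ k, ((size (2 * m) 0 (B k) ε - twistRank ρ (χ k) : ℝ) : ℂ) * (χ k).character g‖ ^ 2 ≤
        (∑ k, (size (2 * (2 * m)) 0 (C k) ε : ℂ) * (χ k).character g).re + η ∧
      (∑ k, (size (2 * (2 * m)) 0 (C k) ε : ℂ) * (χ k).character g).re ≤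
        ((N - Module.finrank ℚ V : ℕ) : ℝ) ^ 2 + η) ∧
  ∀ (δ : κ → ℤ) (p : κ → ℕ), (∀ k, TwistDefect X d m N ρ (χ k) (δ k)) →
    (∀ k, TensorPole X d m N ρ 2 (χ k) (p k)) →
    (∀ g : Gal(AlgebraicClosure K/K),
      ‖∑ k, (δ k : ℂ) * (χ k).character g‖ ^ 2 ≤ (∑ k, (p k : ℂ) * (χ k).character g).re ∧
      (∑ k, (p k : ℂ) * (χ k).character g).re ≤ ((N - Module.finrank ℚ V : ℕ) : ℝ) ^ 2) ∧
    ∀ c : ℕ, c < Nat.card (Gal(AlgebraicClosure K/K) ⧸ U) → (∀ k, p k = c * n k) →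
      (∀ k, δ k = 0) ∧
      ∀ (F : IntermediateField K (AlgebraicClosure K)) [NumberField F], U ≤ F.fixingSubgroup →
        ∀ B : HeightOneSpectrum (𝓞 F) → ℂ[X], Pool.Agent.W353.EF.IsEulerSystem X d (2 * m) N B →
        Tendsto (Pool.Agent.W353.EF.size (2 * m) B) (𝓝[>] 0) (𝓝 (rank ρ F : ℝ))

end

end Pool.Agent.Q11.PL
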