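import Pool.Agent.Q11.MS.Core
import Pool.Agent.Y139.SM.Final
import Pool.Agent.W353.SP.Main

/-! The pointwise law at finite distance from the edge. -/

set_option autoImplicit false

namespace Pool.Agent.Q11.PL

open Complex Filter Topology ComplexConjugate NumberField IsDedekindDomain
  Pool.Agent.W401.Cheb Pool.Agent.W540.BE Pool.Agent.W353.L1 Pool.Agent.W353.AT
  Pool.Agent.W353.SP Pool.Agent.Q11.MS

section
variable {K : Type} [Field K] [NumberField K]

/-- **The pointwise law near the edge.** -/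
theorem pt_eps (U : Subgroup (GK K)) [U.Normal]
    (hU : IsOpen (U : Set (GK K))) [Finite (GK K ⧸ U)] {κ : Type} [Fintype κ] {n : κ → ℕ}
    (χ : ∀ k, Representation ℂ (GK K) (Fin (n k) → ℂ)) (hχ : ∀ k, ∀ u ∈ U, χ k u = 1)
    (σ : HeightOneSpectrum (𝓞 K) → GK K) (hσ : ∀ v, IsFrob v (σ v))
    {T : HeightOneSpectrum (𝓞 K) → ℝ} {s : ℝ} (hs : 0 ≤ s) (hT : ∀ v, |T v| ≤ s)
    (hirr : ∀ k, (χ k).IsIrreducible)
    (hne : ∀ k k', k ≠ k' → IsEmpty ((χ k).Equiv (χ k')))
    (hsum : ∑ k, n k ^ 2 = Nat.card (GK K ⧸ U)) {x S : κ → ℝ → ℝ}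
    (hx : ∀ k, Tendsto (fun ε : ℝ => ED K ε (fun v => T v * RR (χ k) 0 σ v) - x k ε)
      (𝓝[>] 0) (𝓝 0))
    (hS : ∀ k, Tendsto (fun ε : ℝ => ED K ε (fun v => T v ^ 2 * RR (χ k) 0 σ v) - S k ε)
      (𝓝[>] 0) (𝓝 0)) (g : GK K) {η : ℝ} (hη : 0 < η) :
    ∀ᶠ ε : ℝ in 𝓝[>] 0, ‖∑ k, (x k ε : ℂ) * (χ k).character g‖ ^ 2 ≤
        (∑ k, (S k ε : ℂ) * (χ k).character g).re + η ∧
      (∑ k, (S k ε : ℂ) * (χ k).character g).re ≤ s ^ 2 + η := by
  classical
  by_contra hcon
  obtain ⟨z, hz, hzP⟩ := Filter.exists_seq_forall_of_frequently (Filter.not_eventually.1 hcon)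
  have hM := (mnD K).comp hz
  have hR : ∀ k, Bd fun v => RR (χ k) 0 σ v := fun k =>
    bd_RR (x := ⟨n k, χ k⟩) ⟨U, hU, hχ k⟩ σ
  have hTb : Bd T := ⟨s, hT⟩
  have hT2b : Bd fun v => T v ^ 2 := ⟨s ^ 2, fun v => by
    rw [abs_pow]
    exact pow_le_pow_left₀ (abs_nonneg _) (hT v) 2⟩
  obtain ⟨φ, hφ, L, hL⟩ := diag (I := κ ⊕ κ) (fun i j => match i with
    | Sum.inl k => ED K (z j) fun v => T v * RR (χ k) 0 σ v
    | Sum.inr k => ED K (z j) fun v => T v ^ 2 * RR (χ k) 0 σ v) (fun i => by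
      rcases i with k | k
      · obtain ⟨B, hB⟩ := hTb.mul (hR k)
        exact ⟨2 * |B|, hM.bound hB⟩
      · obtain ⟨B, hB⟩ := hT2b.mul (hR k)
        exact ⟨2 * |B|, hM.bound hB⟩)
  have hzφ : Tendsto (fun j => z (φ j)) atTop (𝓝[>] 0) := hz.comp hφ.tendsto_atTop
  have hM' : Mn atTop fun j => ED K (z (φ j)) := (mnD K).comp hzφ
  have hy : ∀ k, Hs atTop (fun j => ED K (z (φ j))) (fun v => T v * RR (χ k) 0 σ v)
      (L (Sum.inl k)) := fun k => ⟨hTb.mul (hR k), hL (Sum.inl k)⟩
  have hq : ∀ k, Hs atTop (fun j => ED K (z (φ j))) (fun v => T v ^ 2 * RR (χ k) 0 σ v)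
      (L (Sum.inr k)) := fun k => ⟨hT2b.mul (hR k), hL (Sum.inr k)⟩
  obtain ⟨h1, h2⟩ := ptLaw hM' U hU χ hχ σ hσ hs hT hirr hne hsum hy hq g
  have hxl : ∀ k, Tendsto (fun j => x k (z (φ j))) atTop (𝓝 (L (Sum.inl k))) := by
    intro k
    have h3 := (hy k).2.sub ((hx k).comp hzφ)
    rw [sub_zero] at h3
    refine h3.congr fun j => ?_
    simp only [Function.comp_apply]
    ring
  have hSl : ∀ k, Tendsto (fun j => S k (z (φ j))) atTop (𝓝 (L (Sum.inr k))) := by
    intro k
    have h3 := (hq k).2.sub ((hS k).comp hzφ)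
    rw [sub_zero] at h3
    refine h3.congr fun j => ?_
    simp only [Function.comp_apply]
    ring
  have hA : Tendsto (fun j => ‖∑ k, (x k (z (φ j)) : ℂ) * (χ k).character g‖ ^ 2) atTop
      (𝓝 (‖∑ k, ((L (Sum.inl k) : ℝ) : ℂ) * (χ k).character g‖ ^ 2)) := by
    refine ((tendsto_finsetSum _ fun k _ => ?_).norm).pow 2
    exact ((Complex.continuous_ofReal.tendsto _).comp (hxl k)).mul_const _
  have hB : Tendsto (fun j => (∑ k, (S k (z (φ j)) : ℂ) * (χ k).character g).re) atTop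
      (𝓝 ((∑ k, ((L (Sum.inr k) : ℝ) : ℂ) * (χ k).character g).re)) := by
    refine (Complex.continuous_re.tendsto _).comp (tendsto_finsetSum _ fun k _ => ?_)
    exact ((Complex.continuous_ofReal.tendsto _).comp (hSl k)).mul_const _
  have hC := (hA.sub hB).eventually_lt_const
    (show ‖∑ k, ((L (Sum.inl k) : ℝ) : ℂ) * (χ k).character g‖ ^ 2 -
      (∑ k, ((L (Sum.inr k) : ℝ) : ℂ) * (χ k).character g).re < η by linarith)
  have hD := hB.eventually_lt_const
    (show (∑ k, ((L (Sum.inr k) : ℝ) : ℂ) * (χ k).character g).re < s ^ 2 + η by linarith)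
  obtain ⟨j, hj1, hj2⟩ := (hC.and hD).exists
  exact hzP (φ j) ⟨by linarith, hj2.le⟩

end

section
variable {Q : Type*} [Group Q] [Finite Q] {κ : Type*} (S : Finset κ) {n : κ → ℕ}
  (r : ∀ k, Representation ℂ Q (Fin (n k) → ℂ)) (hirr : ∀ k ∈ S, (r k).IsIrreducible)
  (hne : ∀ k ∈ S, ∀ l ∈ S, k ≠ l → IsEmpty ((r k).Equiv (r l)))
  (hsum : ∑ k ∈ S, n k ^ 2 = Nat.card Q)

include hirr hne hsum in
/-- a complete family contains all irreducible representations -/
theorem complete {n' : ℕ} (ψ : Representation ℂ Q (Fin n' → ℂ)) (hψ : ψ.IsIrreducible) :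
    ∃ k ∈ S, Nonempty ((r k).Equiv ψ) := by
  classical
  let _ : Fintype Q := Fintype.ofFinite Q
  by_contra hcon
  push Not at hcon
  have hcon' : ∀ k ∈ S, IsEmpty ((r k).Equiv ψ) := fun k hk => by
    rw [← not_nonempty_iff]
    simpa using hcon k hk
  have h0 : (Nat.card Q : ℂ) ≠ 0 := by
    have : Nat.card Q ≠ 0 := Nat.card_pos.ne'
    exact_mod_cast this
  let _ : Invertible (Nat.card Q : ℂ) := invertibleOfNonzero h0
  have h1 : ∀ k ∈ S, ∑ y, ψ.character y * (r k).character y⁻¹ = 0 := by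
    intro k hk
    have := hirr k hk
    have h2 := Representation.char_orthonormal ψ (r k)
    rw [inv_mul_eq_iff_eq_mul₀ h0, if_neg, mul_zero] at h2
    · exact h2
    · rw [not_nonempty_iff]
      exact hcon' k hk
  have h2 := inversion S r hirr hne hsum (fun y => ψ.character y)
    (fun a x => Representation.char_conj _ _ _) 1
  have h3 : ∀ k ∈ S, (∑ y, ψ.character y⁻¹ * (r k).character y) * (r k).character 1 = 0 := by
    intro k hk
    rw [← Equiv.sum_comp (Equiv.inv Q)]
    simp only [Equiv.inv_apply, inv_inv]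
    rw [h1 k hk, zero_mul]
  rw [Finset.sum_eq_zero h3] at h2
  have h4 : ψ.character 1 = 0 := by
    rcases mul_eq_zero.1 h2 with h | h
    · exact absurd h h0
    · exact h
  rw [Representation.char_one, Module.finrank_fin_fun] at h4
  have h5 : n' = 0 := by exact_mod_cast h4
  subst h5
  have h6 : IsSimpleOrder (Subrepresentation ψ) := hψ
  have h7 : (⊥ : Subrepresentation ψ) = ⊤ := by
    have : (⊥ : Subrepresentation ψ).toSubmodule = (⊤ : Subrepresentation ψ).toSubmodule := by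
      ext w
      have hw : w = 0 := Subsingleton.elim _ _
      subst hw
      constructor <;> intro _ <;> exact Submodule.zero_mem _
    exact Subrepresentation.toSubmodule_injective this
  exact bot_ne_top h7

include hirr hne hsum in
/-- class functions bounded by a multiple of the regular character -/
theorem regular_zero (δ : κ → ℤ) (c : ℕ) (hc : c < Nat.card Q)
    (h : ∀ q, ‖∑ k ∈ S, (δ k : ℂ) * (r k).character q‖ ^ 2 ≤
      (∑ k ∈ S, ((c * n k : ℕ) : ℂ) * (r k).character q).re) : ∀ k ∈ S, δ k = 0 := by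
  classical
  let _ : Fintype Q := Fintype.ofFinite Q
  have h0 : (Nat.card Q : ℂ) ≠ 0 := by
    have : Nat.card Q ≠ 0 := Nat.card_pos.ne'
    exact_mod_cast this
  have hreg : ∀ q, ∑ k ∈ S, ((c * n k : ℕ) : ℂ) * (r k).character q =
      if q = 1 then (c : ℂ) * Nat.card Q else 0 := by
    intro q
    have h1 := regular S r hirr hne hsum q
    have h2 : ∑ k ∈ S, ((c * n k : ℕ) : ℂ) * (r k).character q =
        (c : ℂ) * ∑ k ∈ S, (n k : ℂ) * (r k).character q := by
      rw [Finset.mul_sum]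
      refine Finset.sum_congr rfl fun k _ => ?_
      push_cast
      ring
    rw [h2, h1]
    split_ifs <;> simp
  set t : ℂ := ∑ k ∈ S, (δ k : ℂ) * (r k).character 1 with ht
  have hθ : ∀ q, ∑ k ∈ S, (δ k : ℂ) * (r k).character q = if q = 1 then t else 0 := by
    intro q
    by_cases hq : q = 1
    · rw [if_pos hq, hq]
    · rw [if_neg hq]
      have h1 := h q
      rw [hreg, if_neg hq, Complex.zero_re] at h1
      have h2 : ‖∑ k ∈ S, (δ k : ℂ) * (r k).character q‖ = 0 := by
        nlinarith [norm_nonneg (∑ k ∈ S, (δ k : ℂ) * (r k).character q)]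
      exact norm_eq_zero.1 h2
  -- the coefficients
  have hcoef : ∀ k ∈ S, (Nat.card Q : ℂ) * δ k = t * n k := by
    intro k hk
    have h1 : ∑ q, (∑ l ∈ S, (δ l : ℂ) * (r l).character q) * (r k).character q⁻¹ =
        (Nat.card Q : ℂ) * δ k := by
      have h2 : ∀ q, (∑ l ∈ S, (δ l : ℂ) * (r l).character q) * (r k).character q⁻¹ =
          ∑ l ∈ S, (δ l : ℂ) * ((r l).character q * (r k).character q⁻¹) := by
        intro q
        rw [Finset.sum_mul]
        exact Finset.sum_congr rfl fun l _ => by ring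
      simp only [h2]
      rw [Finset.sum_comm]
      have h3 : ∀ l ∈ S, ∑ q, (δ l : ℂ) * ((r l).character q * (r k).character q⁻¹) =
          if l = k then (Nat.card Q : ℂ) * δ k else 0 := by
        intro l hl
        rw [← Finset.mul_sum, ortho_fam S r hirr hne hl hk]
        split_ifs with h4
        · subst h4
          ring
        · rw [mul_zero]
      rw [Finset.sum_congr rfl h3, Finset.sum_ite_eq', if_pos hk]
    rw [← h1]
    simp only [hθ]
    have h5 : ∀ q, (if q = 1 then t else 0) * (r k).character q⁻¹ =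
        if q = 1 then t * n k else 0 := by
      intro q
      split_ifs with hq
      · rw [hq, inv_one, Representation.char_one, Module.finrank_fin_fun]
      · rw [zero_mul]
    simp only [h5]
    rw [Finset.sum_ite_eq', if_pos (Finset.mem_univ _)]
  -- the trivial representation
  obtain ⟨k₀, hk₀, ⟨e⟩⟩ := complete S r hirr hne hsum
    (1 : Representation ℂ Q (Fin 1 → ℂ)) (by
      have hfr : Module.finrank ℂ (Fin 1 → ℂ) = 1 := by simp
      have hsm : IsSimpleOrder (Submodule ℂ (Fin 1 → ℂ)) :=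
        is_simple_module_of_finrank_eq_one (K := ℂ) (A := ℂ) hfr
      have hnt : Nontrivial (Subrepresentation (1 : Representation ℂ Q (Fin 1 → ℂ))) := by
        refine ⟨⟨⊥, ⊤, fun h => ?_⟩⟩
        have h1 : (⊥ : Submodule ℂ (Fin 1 → ℂ)) = ⊤ := congrArg Subrepresentation.toSubmodule h
        exact bot_ne_top h1
      exact { eq_bot_or_eq_top := fun W => by
                have h1 : W.toSubmodule = ⊥ ∨ W.toSubmodule = ⊤ := hsm.2 _
                rcases h1 with h1 | h1
                · left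
                  exact Subrepresentation.toSubmodule_injective h1
                · right
                  exact Subrepresentation.toSubmodule_injective h1 })
  have hn : n k₀ = 1 := by
    have h1 := e.toLinearEquiv.finrank_eq
    simpa using h1
  have h1 : (Nat.card Q : ℂ) * δ k₀ = t := by
    have := hcoef k₀ hk₀
    rwa [hn, Nat.cast_one, mul_one] at this
  have h2 := h 1
  rw [hθ, hreg, if_pos rfl, if_pos rfl, ← h1] at h2
  have h3 : ‖(Nat.card Q : ℂ) * δ k₀‖ ^ 2 = (Nat.card Q : ℝ) ^ 2 * (δ k₀ : ℝ) ^ 2 := by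
    rw [norm_mul, mul_pow, Complex.norm_natCast, Complex.norm_intCast, sq_abs]
  have h4 : ((c : ℂ) * Nat.card Q).re = (c : ℝ) * Nat.card Q := by
    rw [← Nat.cast_mul, Complex.natCast_re, Nat.cast_mul]
  rw [h3, h4] at h2
  have hq0 : (0 : ℝ) < Nat.card Q := by exact_mod_cast Nat.card_pos
  have hδ : δ k₀ = 0 := by
    by_contra hne0
    have h5 : (1 : ℝ) ≤ (δ k₀ : ℝ) ^ 2 := by
      have : (1 : ℤ) ≤ δ k₀ ^ 2 := by
        have := sq_pos_of_ne_zero hne0
        omega
      exact_mod_cast this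
    have h6 : (c : ℝ) < Nat.card Q := by exact_mod_cast hc
    have h7 : (Nat.card Q : ℝ) ^ 2 ≤ (Nat.card Q : ℝ) ^ 2 * (δ k₀ : ℝ) ^ 2 :=
      le_mul_of_one_le_right (by positivity) h5
    nlinarith
  have ht0 : t = 0 := by
    rw [← h1, hδ, Int.cast_zero, mul_zero]
  intro k hk
  have h5 := hcoef k hk
  rw [ht0, zero_mul] at h5
  rcases mul_eq_zero.1 h5 with h6 | h6
  · exact absurd h6 h0
  · exact_mod_cast h6

end

end Pool.Agent.Q11.PL
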