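import Pool.Agent.Q11.PL.Eps
import Pool.Agent.Q11.PL.Defs

/-! The pointwise law: proof. -/

set_option autoImplicit false

namespace Pool.Agent.Q11.PL

open Complex Filter Topology ComplexConjugate NumberField IsDedekindDomain
  Pool.Agent.W401.Cheb Pool.Agent.W540.BE Pool.Agent.W353.L1 Polynomial
  Pool.Agent.Y139.SM
open Pool.Agent.H341R2 (lam lam_tendsto)
open Pool.Agent.W353.TD (ch IsPart rank)
open Pool.Agent.W353.PV (tF)
open Pool.Agent.W353.EF (LFun)
open Pool.Agent.W353.EH (edgePoint size)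
open Pool.Agent.W353.AT (tC abs_tC IsArtin exists_common tw_C IsTwistedSystem
  twistRank TwistDefect fixedDim)
open Pool.Agent.W353.SP (ED tateSpectrum fixed_zero fixedDim_mono)

section
variable {K : Type} [Field K] [NumberField K] {l : ℕ} {X : Set (MvPolynomial (Fin l) (𝓞 K))}
  {d m N : ℕ} {V : Type} [AddCommGroup V] [Module ℚ V] [FiniteDimensional ℚ V]
  {ρ : Representation ℚ (GK K) V} {U : Subgroup (GK K)} {κ : Type} [Fintype κ] {n : κ → ℕ}
  {χ : ∀ k, Representation ℂ (GK K) (Fin (n k) → ℂ)}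

/-- the law at finite distance -/
theorem law_eps (hmd : m ≤ d) (hV : IsPart X d m N ρ) (hc : IsComplete U n χ)
    {B C : κ → HeightOneSpectrum (𝓞 K) → ℂ[X]}
    (hB : ∀ k, IsTwistedSystem X d (2 * m) N (χ k) 0 (B k))
    (hC : ∀ k, IsTensorSystem X d m N ρ 2 (χ k) (C k)) :
    (∀ k, ∀ᶠ ε : ℝ in 𝓝[>] 0, LFun (B k) (edgePoint (2 * m) 0 + ε) ≠ 0 ∧
      LFun (C k) (edgePoint (2 * (2 * m)) 0 + ε) ≠ 0) ∧
    ∀ (g : GK K) (η : ℝ), 0 < η → ∀ᶠ ε : ℝ in 𝓝[>] 0,
      ‖∑ k, ((size (2 * m) 0 (B k) ε - twistRank ρ (χ k) : ℝ) : ℂ) * (χ k).character g‖ ^ 2 ≤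
        (∑ k, (size (2 * (2 * m)) 0 (C k) ε : ℂ) * (χ k).character g).re + η ∧
      (∑ k, (size (2 * (2 * m)) 0 (C k) ε : ℂ) * (χ k).character g).re ≤
        ((N - Module.finrank ℚ V : ℕ) : ℝ) ^ 2 + η := by
  classical
  obtain ⟨hUn, hU, hχ, hirr, hne, hsum⟩ := hc
  have hfin : Finite (GK K ⧸ U) := Subgroup.quotient_finite_of_isOpen U hU
  have hm : 2 * m ≤ 2 * d := by omega
  choose σ hσ using exists_isFrob (F := K)
  have hgood := good_of_part hm hV hσ
  have hA : ∀ k, IsArtin (χ k) := fun k => ⟨U, hU, hχ k⟩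
  have h1 := fun k => tw_C hm hσ hgood hV.1 ⟨n k, χ k⟩ (hA k) (B k) (hB k)
  have h2 := fun k => tensor_size hm hσ hgood 2 (χ k) (hA k) (C k) (hC k)
  refine ⟨fun k => (h1 k).1.and (h2 k).1, fun g η hη => ?_⟩
  exact pt_eps U hU χ hχ σ hσ (T := tC ρ X d (2 * m) N (N - Module.finrank ℚ V) σ)
    (s := (N - Module.finrank ℚ V : ℕ)) (Nat.cast_nonneg _) (fun v => abs_tC _ _ _ _ _ _ _ _)
    hirr hne hsum (x := fun k ε => size (2 * m) 0 (B k) ε - twistRank ρ (χ k))
    (S := fun k => size (2 * (2 * m)) 0 (C k)) (fun k => (h1 k).2) (fun k => (h2 k).2) g hη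

/-- the law for the orders -/
theorem law_lim (hmd : m ≤ d) (hV : IsPart X d m N ρ) (hc : IsComplete U n χ)
    {δ : κ → ℤ} {p : κ → ℕ} (hδ : ∀ k, TwistDefect X d m N ρ (χ k) (δ k))
    (hp : ∀ k, TensorPole X d m N ρ 2 (χ k) (p k)) (g : GK K) :
    ‖∑ k, (δ k : ℂ) * (χ k).character g‖ ^ 2 ≤ (∑ k, (p k : ℂ) * (χ k).character g).re ∧
      (∑ k, (p k : ℂ) * (χ k).character g).re ≤ ((N - Module.finrank ℚ V : ℕ) : ℝ) ^ 2 := by
  classical
  choose B hB hB2 using hδ
  choose C hC hC2 using hp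
  have h := (law_eps hmd hV hc hB hC).2 g
  have hx : Tendsto (fun ε : ℝ => ‖∑ k, ((size (2 * m) 0 (B k) ε - twistRank ρ (χ k) : ℝ) : ℂ) *
      (χ k).character g‖ ^ 2) (𝓝[>] 0) (𝓝 (‖∑ k, (δ k : ℂ) * (χ k).character g‖ ^ 2)) := by
    have h1 : Tendsto (fun ε : ℝ => ‖∑ k, ((size (2 * m) 0 (B k) ε - twistRank ρ (χ k) : ℝ) : ℂ) *
        (χ k).character g‖ ^ 2) (𝓝[>] 0)
        (𝓝 (‖∑ k, ((-(δ k : ℝ) : ℝ) : ℂ) * (χ k).character g‖ ^ 2)) := by
      refine ((tendsto_finsetSum _ fun k _ => ?_).norm).pow 2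
      have h2 := (hB2 k).sub_const (twistRank ρ (χ k) : ℝ)
      have e : (twistRank ρ (χ k) : ℝ) - δ k - twistRank ρ (χ k) = -(δ k : ℝ) := by ring
      rw [e] at h2
      exact ((Complex.continuous_ofReal.tendsto _).comp h2).mul_const _
    have e : ∑ k, ((-(δ k : ℝ) : ℝ) : ℂ) * (χ k).character g =
        -∑ k, (δ k : ℂ) * (χ k).character g := by
      rw [← Finset.sum_neg_distrib]
      refine Finset.sum_congr rfl fun k _ => ?_
      push_cast
      ring
    rwa [e, norm_neg] at h1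
  have hS : Tendsto (fun ε : ℝ => (∑ k, (size (2 * (2 * m)) 0 (C k) ε : ℂ) *
      (χ k).character g).re) (𝓝[>] 0) (𝓝 ((∑ k, (p k : ℂ) * (χ k).character g).re)) := by
    refine (Complex.continuous_re.tendsto _).comp (tendsto_finsetSum _ fun k _ => ?_)
    have h1 := (Complex.continuous_ofReal.tendsto _).comp (hC2 k)
    rw [Complex.ofReal_natCast] at h1
    exact h1.mul_const _
  constructor
  · refine le_of_forall_pos_le_add fun η hη => ?_
    exact le_of_tendsto_of_tendsto hx (hS.add_const η) ((h η hη).mono fun ε h => h.1)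
  · refine le_of_forall_pos_le_add fun η hη => ?_
    exact le_of_tendsto_of_tendsto hS tendsto_const_nhds ((h η hη).mono fun ε h => h.2)

/-- defects below a multiple of the regular character -/
theorem defects_zero (hmd : m ≤ d) (hV : IsPart X d m N ρ) (hc : IsComplete U n χ)
    {δ : κ → ℤ} {p : κ → ℕ} (hδ : ∀ k, TwistDefect X d m N ρ (χ k) (δ k))
    (hp : ∀ k, TensorPole X d m N ρ 2 (χ k) (p k)) {c : ℕ}
    (hcc : c < Nat.card (GK K ⧸ U)) (hpc : ∀ k, p k = c * n k) : ∀ k, δ k = 0 := by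
  classical
  obtain ⟨hUn, hU, hχ, hirr, hne, hsum⟩ := id hc
  have hfin : Finite (GK K ⧸ U) := Subgroup.quotient_finite_of_isOpen U hU
  intro k
  refine regular_zero (Q := GK K ⧸ U) Finset.univ (fun k => qrep U (χ k) (hχ k))
    (fun k _ => qrep_irr U (χ k) (hχ k) (hirr k)) (fun k _ k' _ hkk => ?_) hsum δ c hcc
    (fun q => ?_) k (Finset.mem_univ k)
  · rw [← not_nonempty_iff, qrep_equiv U (χ k) (hχ k) (χ k') (hχ k'), not_nonempty_iff]
    exact hne k k' hkk
  · obtain ⟨g, rfl⟩ := QuotientGroup.mk_surjective q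
    have h1 := (law_lim hmd hV hc hδ hp g).1
    simp only [hpc] at h1
    exact h1

/-- the fields between `K` and `M` -/
theorem between (hmd : m ≤ d) (hV : IsPart X d m N ρ) (hc : IsComplete U n χ)
    (hδ : ∀ k, TwistDefect X d m N ρ (χ k) 0)
    (F : IntermediateField K (AlgebraicClosure K)) [NumberField F] (hF : U ≤ F.fixingSubgroup)
    (B : HeightOneSpectrum (𝓞 F) → ℂ[X]) (hB : Pool.Agent.W353.EF.IsEulerSystem X d (2 * m) N B) :
    Tendsto (Pool.Agent.W353.EF.size (2 * m) B) (𝓝[>] 0) (𝓝 (rank ρ F : ℝ)) := by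
  classical
  obtain ⟨hUn, hU, hχ, hirr, hne, hsum⟩ := id hc
  have hfin : Finite (GK K ⧸ U) := Subgroup.quotient_finite_of_isOpen U hU
  refine tendsto_of_subseq_tendsto fun e he => ?_
  obtain ⟨φ, hφ, δ, y, h1, h2, hsp1, -, hsp3, -⟩ := tateSpectrum hmd hV e he
  refine ⟨φ, ?_⟩
  have h3 := h1 F B hB
  have hy : ∀ k, y (n k) (χ k) = 0 := by
    intro k
    obtain ⟨B', hB', hl⟩ := hδ k
    have h4 := h2 (n k) (χ k) ⟨U, hU, hχ k⟩ B' hB'
    have h5 := hl.comp (he.comp hφ.tendsto_atTop)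
    have h6 := tendsto_nhds_unique h4 h5
    push_cast at h6
    linarith
  have hδF : δ F = 0 := by
    obtain ⟨κ', _, n', χ', g1, g2, -, g4⟩ := hsp3 F
    rw [g4]
    refine Finset.sum_eq_zero fun j _ => ?_
    by_cases hj : fixedDim (χ' j) F = 0
    · rw [hj, Nat.cast_zero, mul_zero]
    · set M : IntermediateField K (AlgebraicClosure K) := IntermediateField.fixedField U with hM
      have hMU : M.fixingSubgroup = U :=
        InfiniteGalois.fixingSubgroup_fixedField ⟨U, U.isClosed_of_isOpen hU⟩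
      have hFM : F ≤ M := by
        have h5 : IntermediateField.fixedField F.fixingSubgroup ≤ M := by
          intro w hw
          rw [hM, IntermediateField.mem_fixedField_iff]
          rw [IntermediateField.mem_fixedField_iff] at hw
          exact fun g hg => hw g (hF hg)
        rwa [InfiniteGalois.fixedField_fixingSubgroup] at h5
      have htriv : ∀ u ∈ U, χ' j u = 1 := by
        by_contra hcon
        have h5 := fixed_zero (U := U) hMU ⟨n' j, χ' j⟩ (g1 j).2 hcon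
        have h6 := fixedDim_mono (χ' j) hFM
        have h7 : fixedDim (χ' j) M = 0 := h5
        omega
      obtain ⟨k, -, he⟩ := complete (Q := GK K ⧸ U) Finset.univ (fun k => qrep U (χ k) (hχ k))
        (fun k _ => qrep_irr U (χ k) (hχ k) (hirr k)) (fun k _ k' _ hkk => by
          rw [← not_nonempty_iff, qrep_equiv U (χ k) (hχ k) (χ k') (hχ k'), not_nonempty_iff]
          exact hne k k' hkk) hsum (qrep U (χ' j) htriv) (qrep_irr U (χ' j) htriv (g1 j).2)
      rw [qrep_equiv U (χ k) (hχ k) (χ' j) htriv] at he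
      have h5 := hsp1 (n k) (n' j) (χ k) (χ' j) ⟨U, hU, hχ k⟩ (g1 j).1 he
      rw [← h5, hy, zero_mul]
  rw [hδF, sub_zero] at h3
  exact h3

theorem pointwiseLaw (hmd : m ≤ d) (hV : IsPart X d m N ρ) : PointwiseLaw X d m N ρ := by
  intro U κ _ n χ hc
  refine ⟨fun B C hB hC => law_eps hmd hV hc hB hC, fun δ p hδ hp =>
    ⟨fun g => law_lim hmd hV hc hδ hp g, fun c hcc hpc => ?_⟩⟩
  have h1 := defects_zero hmd hV hc hδ hp hcc hpc
  refine ⟨h1, fun F _ hF B hB => between hmd hV hc (fun k => ?_) F hF B hB⟩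
  have h2 := hδ k
  rwa [h1 k] at h2

end

end Pool.Agent.Q11.PL
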